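import Pool.Agent.H419R2.A1

/-! Rings of integers `ℤ[√D₀]`, `D₀ ≡ 2, 3 (mod 4)`, in the form `ℤ[ω]`, `ω² = R + m ω`, `m` even;
class number one gives a principal ideal ring. -/

namespace H364_Bi

open QuadraticAlgebra Module H419R2

variable {K : Type*} [Field K] [NumberField K]

theorem not_sq4 {D0 : ℤ} (h : ¬ ∃ q : ℚ, q ^ 2 = D0) : ¬ ∃ q : ℚ, q ^ 2 = ((4 * D0 : ℤ) : ℚ) := by
  rintro ⟨q, hq⟩
  apply h
  refine ⟨q / 2, ?_⟩
  push_cast at hq
  rw [div_pow, hq]; ring

theorem even_of_mod4 {D0 a b c : ℤ} (hD4 : D0 % 4 = 2 ∨ D0 % 4 = 3)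
    (h : D0 * c ^ 2 = a ^ 2 - 4 * b) : a % 2 = 0 ∧ c % 2 = 0 := by
  obtain ⟨a', ha⟩ : ∃ a', a = 2 * a' + a % 2 := ⟨a / 2, by omega⟩
  obtain ⟨c', hc⟩ : ∃ c', c = 2 * c' + c % 2 := ⟨c / 2, by omega⟩
  obtain ⟨d', hd⟩ : ∃ d', D0 = 4 * d' + D0 % 4 := ⟨D0 / 4, by omega⟩
  have hca := Int.emod_two_eq_zero_or_one a
  have hcc := Int.emod_two_eq_zero_or_one c
  rcases hca with h1 | h1 <;> rcases hcc with h2 | h2 <;> rcases hD4 with h3 | h3 <;>
    rw [h1] at ha <;> rw [h2] at hc <;> rw [h3] at hd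
  all_goals first
    | exact ⟨h1, h2⟩
    | (exfalso
       rw [ha, hc, hd] at h
       ring_nf at h
       omega)

theorem integral_coords_even {m n : ℤ} (hm : m = 2 * n) {D0 : ℤ}
    (hsf : Squarefree D0) (hD1 : 1 < D0) (hD4 : D0 % 4 = 2 ∨ D0 % 4 = 3)
    (hK : finrank ℚ K = 2) {x0 : K} (hx : x0 ^ 2 = (D0 : K)) {y : K} (hy : IsIntegral ℤ y) :
    ∃ u w : ℤ, y = (u : K) + (w : K) * (((m : K) + 2 * x0) / 2) := by
  have hns := not_sq_of_squarefree hsf hD1
  obtain ⟨p, q, rfl⟩ := exists_coords hns hK hx y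
  by_cases hq : q = 0
  · subst hq
    simp only [Rat.cast_zero, zero_mul, add_zero] at hy
    have hp : IsIntegral ℤ p := by
      have : IsIntegral ℤ (algebraMap ℚ K p) := by simpa using hy
      exact (isIntegral_algebraMap_iff (algebraMap ℚ K).injective).mp this
    obtain ⟨n, hn⟩ := IsIntegrallyClosed.isIntegral_iff.mp hp
    have hn' : (n : ℚ) = p := by simpa using hn
    refine ⟨n, 0, ?_⟩
    rw [← hn']
    push_cast
    ring
  · obtain ⟨⟨a, ha⟩, ⟨b, hb⟩⟩ := two_int_of_integral hns hx hq hy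
    have h4 : (D0 : ℚ) * (2 * q) ^ 2 = ((a ^ 2 - 4 * b : ℤ) : ℚ) := by
      push_cast
      rw [ha, hb]; ring
    obtain ⟨c, hc⟩ := int_of_squarefree_mul_sq hsf h4
    have h5 : D0 * c ^ 2 = a ^ 2 - 4 * b := by
      rw [← hc] at h4
      exact_mod_cast h4
    obtain ⟨h6, h7⟩ := even_of_mod4 hD4 h5
    obtain ⟨a', ha'⟩ : ∃ a', a = 2 * a' := ⟨a / 2, by omega⟩
    obtain ⟨c', hc'⟩ : ∃ c', c = 2 * c' := ⟨c / 2, by omega⟩
    refine ⟨a' - n * c', c', ?_⟩
    have hp : p = (a' : ℚ) := by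
      have : (2 : ℚ) * p = 2 * a' := by rw [← ha, ha']; push_cast; ring
      linarith
    have hq' : q = (c' : ℚ) := by
      have : (2 : ℚ) * q = 2 * c' := by rw [← hc, hc']; push_cast; ring
      linarith
    rw [hp, hq', hm]
    push_cast
    ring

theorem pid_of_coords {m R : ℤ} {D : ℤ} (hDm : D = m ^ 2 + 4 * R)
    (hns : ¬ ∃ q : ℚ, q ^ 2 = D) {x : K} (hx : x ^ 2 = (D : K))
    (hco : ∀ y : K, IsIntegral ℤ y → ∃ u w : ℤ, y = (u : K) + (w : K) * (((m : K) + x) / 2))
    (hcl : NumberField.classNumber K = 1) :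
    IsPrincipalIdealRing (QA R m) := by
  have hxr : ∀ p q : ℤ, (p : K) + (q : K) * (((m : K) + x) / 2) = 0 → p = 0 ∧ q = 0 := by
    intro p q h
    have h2 : (2 : K) ≠ 0 := by norm_num
    by_cases hq : q = 0
    · subst hq
      simp at h
      exact ⟨h, rfl⟩
    · exfalso
      apply hns
      refine ⟨-(2 * p + q * m) / q, ?_⟩
      have hq' : (q : K) ≠ 0 := by exact_mod_cast hq
      have hxe : x = ((-(2 * p + q * m) / q : ℚ) : K) := by
        push_cast
        rw [eq_div_iff hq']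
        field_simp at h
        linear_combination h
      have h3 : (((-(2 * p + q * m) / q) ^ 2 : ℚ) : K) = ((D : ℚ) : K) := by
        push_cast
        rw [hxe] at hx
        push_cast at hx
        exact hx
      exact_mod_cast h3
  letI : Algebra (QA R m) K := (emb hDm hx).toRingHom.toAlgebra
  have hmap : ∀ z : QA R m, algebraMap (QA R m) K z =
      (z.re : K) + (z.im : K) * (((m : K) + x) / 2) := fun z => emb_apply hDm hx z
  haveI : IsIntegralClosure (QA R m) ℤ K := by
    refine ⟨?_, ?_⟩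
    · intro z w hzw
      rw [hmap, hmap] at hzw
      have := hxr (z.re - w.re) (z.im - w.im) (by push_cast; linear_combination hzw)
      ext
      · linarith [this.1]
      · linarith [this.2]
    · intro y
      constructor
      · intro hy
        obtain ⟨u, w, h⟩ := hco y hy
        exact ⟨⟨u, w⟩, by rw [hmap, h]⟩
      · rintro ⟨z, rfl⟩
        have : IsIntegral ℤ z := by
          refine ⟨Polynomial.X ^ 2 - Polynomial.C (QuadraticAlgebra.trace z) * Polynomial.X
            + Polynomial.C (QuadraticAlgebra.norm z), ?_, ?_⟩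
          · monicity!
          · rw [← Polynomial.aeval_def]
            simp only [map_add, map_sub, map_pow, map_mul, Polynomial.aeval_X, Polynomial.aeval_C]
            have := QuadraticAlgebra.sq_sub_trace_smul_add_norm_eq_zero z
            simpa [Algebra.smul_def] using this
        exact this.map (emb hDm hx)
  haveI : IsScalarTower ℤ (QA R m) K := IsScalarTower.of_algebraMap_eq (fun n => by simp)
  have e : NumberField.RingOfIntegers K ≃ₐ[ℤ] QA R m :=
    IsIntegralClosure.equiv ℤ (NumberField.RingOfIntegers K) K (QA R m)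
  rw [NumberField.classNumber_eq_one_iff] at hcl
  exact IsPrincipalIdealRing.of_surjective e.toRingEquiv e.surjective

end H364_Bi
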