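import Pool.Agent.H419R2.A3

/-! Real characters attached to quadratic orders with even discriminant, and the number of ideals
of given norm. -/

namespace H364_Bi

open QuadraticAlgebra Module H419R2

/-- A completely multiplicative function of period `D` with values in `[-1, 1]`. -/
structure Ch (D : ℕ) where
  κ : ℕ → ℤ
  zero : κ 0 = 0
  one : κ 1 = 1
  mul : ∀ a b, κ (a * b) = κ a * κ b
  abs_le : ∀ b, |κ b| ≤ 1
  per : ∀ b, κ (b + D) = κ b

/-- `∑_{b ∣ n} κ(b)` -/
def crr {D : ℕ} (C : Ch D) (n : ℕ) : ℤ := ∑ b ∈ n.divisors, C.κ b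

theorem crr_one {D : ℕ} (C : Ch D) : crr C 1 = 1 := by
  simp [crr, C.one]

theorem crr_rec {D l n : ℕ} (C : Ch D) (hl : l.Prime) (hn : n ≠ 0) :
    crr C (l * n) = (1 + C.κ l) * crr C n
      - C.κ l * (if l ∣ n then crr C (n / l) else 0) := by
  unfold crr
  rw [divisors_prime_mul hl hn]
  have h1 := Finset.sum_union_inter (s₁ := n.divisors)
    (s₂ := n.divisors.image (fun b => l * b)) (f := fun b : ℕ => C.κ b)
  have himg : ∀ s : Finset ℕ, ∑ b ∈ s.image (fun b => l * b), C.κ b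
      = C.κ l * ∑ b ∈ s, C.κ b := by
    intro s
    rw [Finset.sum_image (by
      intro a _ b _ h
      exact Nat.eq_of_mul_eq_mul_left hl.pos h), Finset.mul_sum]
    apply Finset.sum_congr rfl
    intro b _
    rw [C.mul]
  have hinter : ∑ b ∈ n.divisors ∩ n.divisors.image (fun b => l * b), C.κ b
      = C.κ l * (if l ∣ n then ∑ b ∈ (n / l).divisors, C.κ b else 0) := by
    split_ifs with h
    · obtain ⟨k, rfl⟩ := h
      rw [Nat.mul_div_cancel_left _ hl.pos, ← himg]
      apply Finset.sum_congr _ (fun _ _ => rfl)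
      have hk : k ≠ 0 := by rintro rfl; simp at hn
      ext b
      simp only [Nat.mem_divisors, Finset.mem_inter, Finset.mem_image]
      constructor
      · rintro ⟨⟨h1, _⟩, ⟨c, ⟨h2, _⟩, rfl⟩⟩
        exact ⟨c, ⟨Nat.dvd_of_mul_dvd_mul_left hl.pos h1, hk⟩, rfl⟩
      · rintro ⟨c, ⟨h2, _⟩, rfl⟩
        exact ⟨⟨Nat.mul_dvd_mul_left l h2, hn⟩, ⟨c, ⟨h2.mul_left l, hn⟩, rfl⟩⟩
    · rw [mul_zero]
      apply Finset.sum_eq_zero
      intro b hb
      exfalso
      simp only [Nat.mem_divisors, Finset.mem_inter, Finset.mem_image] at hb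
      obtain ⟨⟨h1, _⟩, ⟨c, _, rfl⟩⟩ := hb
      exact h ((Dvd.intro _ rfl).trans h1)
  rw [himg, hinter] at h1
  linarith

/-- the character `(4D₀ / ·)` -/
def kr (D0 : ℕ) (b : ℕ) : ℤ := if b % 2 = 0 then 0 else jacobiSym (D0 : ℤ) b

theorem kr_mul (D0 a b : ℕ) : kr D0 (a * b) = kr D0 a * kr D0 b := by
  unfold kr
  by_cases ha : a % 2 = 0
  · have : a * b % 2 = 0 := by rw [Nat.mul_mod, ha]; simp
    rw [if_pos ha, if_pos this]; simp
  · by_cases hb : b % 2 = 0
    · have : a * b % 2 = 0 := by rw [Nat.mul_mod, hb]; simp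
      rw [if_pos hb, if_pos this]; simp
    · have : ¬ a * b % 2 = 0 := by
        have h1 : a % 2 = 1 := by omega
        have h2 : b % 2 = 1 := by omega
        rw [Nat.mul_mod, h1, h2]; simp
      rw [if_neg ha, if_neg hb, if_neg this]
      have hna : NeZero a := ⟨by rintro rfl; simp at ha⟩
      have hnb : NeZero b := ⟨by rintro rfl; simp at hb⟩
      rw [jacobiSym.mul_right]

theorem kr_abs (D0 b : ℕ) : |kr D0 b| ≤ 1 := by
  unfold kr
  split_ifs
  · simp
  · rcases jacobiSym.trichotomy (D0 : ℤ) b with h | h | h <;> rw [h] <;> simp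

theorem kr_per (D0 b : ℕ) : kr D0 (b + 4 * D0) = kr D0 b := by
  unfold kr
  have h1 : (b + 4 * D0) % 2 = b % 2 := by omega
  rw [h1]
  split_ifs with h
  · rfl
  · have hb : Odd b := Nat.odd_iff.mpr (by omega)
    have hb' : Odd (b + 4 * D0) := Nat.odd_iff.mpr (by omega)
    rw [jacobiSym.mod_right (D0 : ℤ) hb', jacobiSym.mod_right (D0 : ℤ) hb]
    congr 1
    rw [Int.natAbs_natCast]
    exact Nat.add_mod_right _ _

/-- the character as a `Ch` -/
def chr (D0 : ℕ) : Ch (4 * D0) where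
  κ := kr D0
  zero := by simp [kr]
  one := by simp [kr]
  mul := kr_mul D0
  abs_le := kr_abs D0
  per := kr_per D0

section

variable {R m : ℤ} {D0 : ℕ}

theorem sq_iff {l : ℕ} (hl : l.Prime) (h2 : l ≠ 2) :
    IsSquare (((4 * D0 : ℕ) : ℤ) : ZMod l) ↔ IsSquare ((D0 : ℤ) : ZMod l) := by
  haveI := Fact.mk hl
  have h20 : (2 : ZMod l) ≠ 0 := by
    intro h3
    have : ((2 : ℕ) : ZMod l) = 0 := by exact_mod_cast h3
    rw [ZMod.natCast_eq_zero_iff] at this
    exact h2 ((Nat.prime_dvd_prime_iff_eq hl Nat.prime_two).mp this)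
  constructor
  · rintro ⟨y, hy⟩
    refine ⟨y / 2, ?_⟩
    push_cast at hy ⊢
    field_simp
    linear_combination hy
  · rintro ⟨y, hy⟩
    refine ⟨2 * y, ?_⟩
    push_cast at hy ⊢
    linear_combination 4 * hy

variable [IsDomain (QA R m)] [IsPrincipalIdealRing (QA R m)]

theorem cnt_rec_even (hD : ((4 * D0 : ℕ) : ℤ) = m ^ 2 + 4 * R) (hR : R % 2 = 0)
    {l : ℕ} (hl : l.Prime) (n : ℕ) :
    (cnt R m (l * n) : ℤ) = (1 + kr D0 l) * cnt R m n
      - kr D0 l * (if l ∣ n then (cnt R m (n / l) : ℤ) else 0) := by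
  by_cases h2 : l = 2
  · subst h2
    have hj : kr D0 2 = 0 := by simp [kr]
    have hw : ((2 : ℕ) : ℤ) ∣ (0 : ℤ) ^ 2 + m * 0 - R := by
      push_cast
      omega
    obtain ⟨p, hp⟩ := exists_norm_prime hl hw
    have hlD : ((2 : ℕ) : ℤ) ∣ ((4 * D0 : ℕ) : ℤ) := by
      push_cast
      exact ⟨2 * D0, by ring⟩
    rw [hj, cnt_ramified hl hp (span_eq_of_dvd hp hD hl hlD)]
    simp
  · have hodd : Odd l := hl.odd_of_ne_two h2
    haveI := Fact.mk hl
    have hj : kr D0 l = legendreSym l (D0 : ℤ) := by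
      unfold kr
      rw [jacobiSym.legendreSym.to_jacobiSym, if_neg]
      have := Nat.odd_iff.mp hodd
      omega
    rw [hj]
    by_cases hz : ((D0 : ℤ) : ZMod l) = 0
    · rw [(legendreSym.eq_zero_iff l (D0 : ℤ)).mpr hz]
      obtain ⟨w0, hw0⟩ := root_of_square (R := R) (m := m) hl h2 hD
        ((sq_iff hl h2).mpr (by rw [hz]; exact ⟨0, by simp⟩))
      obtain ⟨p, hp⟩ := exists_norm_prime hl hw0
      have hlD : (l : ℤ) ∣ ((4 * D0 : ℕ) : ℤ) := by
        have : (l : ℤ) ∣ (D0 : ℤ) := (ZMod.intCast_zmod_eq_zero_iff_dvd _ l).mp hz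
        push_cast
        exact this.mul_left 4
      rw [cnt_ramified hl hp (span_eq_of_dvd hp hD hl hlD)]
      simp
    · by_cases hs : IsSquare ((D0 : ℤ) : ZMod l)
      · rw [(legendreSym.eq_one_iff l hz).mpr hs]
        obtain ⟨w0, hw0⟩ := root_of_square (R := R) (m := m) hl h2 hD ((sq_iff hl h2).mpr hs)
        obtain ⟨p, hp⟩ := exists_norm_prime hl hw0
        have hlD : ¬ (l : ℤ) ∣ ((4 * D0 : ℕ) : ℤ) := by
          intro h
          have hlp : Prime (l : ℤ) := Nat.prime_iff_prime_int.mp hl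
          push_cast at h
          rcases hlp.dvd_or_dvd h with h | h
          · have h3 : (l : ℤ) ∣ 2 := by
              have : (l : ℤ) ∣ 2 ^ 2 := by norm_num; exact h
              exact hlp.dvd_of_dvd_pow this
            have h4 : l ∣ 2 := by exact_mod_cast h3
            exact h2 ((Nat.prime_dvd_prime_iff_eq hl Nat.prime_two).mp h4)
          · exact hz ((ZMod.intCast_zmod_eq_zero_iff_dvd _ l).mpr h)
        have h3 := cnt_split hl hp (span_ne_of_not_dvd hp hD hl h2 hlD) n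
        split_ifs at h3 ⊢ <;> push_cast [← h3] <;> linarith
      · rw [(legendreSym.eq_neg_one_iff l).mpr hs]
        rw [cnt_inert hl (inert_of_not_square hl h2 hD (fun h => hs ((sq_iff hl h2).mp h)))]
        split_ifs <;> simp

theorem cnt_eq_crr {D : ℕ} (C : Ch D)
    (hrec : ∀ l : ℕ, l.Prime → ∀ n : ℕ, (cnt R m (l * n) : ℤ) = (1 + C.κ l) * cnt R m n
      - C.κ l * (if l ∣ n then (cnt R m (n / l) : ℤ) else 0))
    (n : ℕ) (hn : n ≠ 0) : (cnt R m n : ℤ) = crr C n := by
  induction n using Nat.strong_induction_on with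
  | _ n ih =>
    by_cases h1 : n = 1
    · subst h1
      rw [cnt_one, crr_one]; simp
    · obtain ⟨l, hl, k, hk⟩ := Nat.exists_prime_and_dvd h1
      have hk0 : k ≠ 0 := by rintro rfl; simp at hk; exact hn hk
      have hkn : k < n := by
        rw [hk]
        have := hl.two_le
        have : 0 < k := Nat.pos_of_ne_zero hk0
        nlinarith
      rw [hk, hrec l hl, crr_rec C hl hk0, ih k hkn hk0]
      congr 2
      split_ifs with h
      · obtain ⟨j, hj⟩ := h
        have hj0 : j ≠ 0 := by rintro rfl; simp at hj; exact hk0 hj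
        have : k / l = j := by rw [hj]; exact Nat.mul_div_cancel_left _ hl.pos
        rw [this]
        apply ih j _ hj0
        have : j ≤ k := by rw [hj]; exact Nat.le_mul_of_pos_left _ hl.pos
        omega
      · rfl

theorem cnt_eq_chr (hD : ((4 * D0 : ℕ) : ℤ) = m ^ 2 + 4 * R) (hR : R % 2 = 0)
    (n : ℕ) (hn : n ≠ 0) : (cnt R m n : ℤ) = crr (chr D0) n :=
  cnt_eq_crr (chr D0) (fun _ hl n => cnt_rec_even hD hR hl n) n hn

end

end H364_Bi
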