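import Pool.Agent.H364_Bi.N4
import Pool.Agent.H364_Bi.N1
import Pool.Agent.H419R2.E3

/-! Consequences of class number one, even discriminant. -/

namespace H364_Bi

open Finset H419R2

theorem isDomain_of' {m R D : ℤ} (hDm : D = m ^ 2 + 4 * R) (hns : ¬ ∃ q : ℚ, q ^ 2 = D) :
    IsDomain (QA R m) := by
  have hn : ∀ z : QA R m, QuadraticAlgebra.norm z = 0 → z = 0 := by
    intro z hz
    rw [norm_eq] at hz
    have h1 : (2 * z.re + m * z.im) ^ 2 = D * z.im ^ 2 := by rw [hDm]; linear_combination 4 * hz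
    have him : z.im = 0 := by
      by_contra h
      apply hns
      refine ⟨(2 * z.re + m * z.im) / z.im, ?_⟩
      have h' : (z.im : ℚ) ≠ 0 := by exact_mod_cast h
      have h2 : (2 * (z.re : ℚ) + m * z.im) ^ 2 = D * (z.im : ℚ) ^ 2 := by exact_mod_cast h1
      field_simp
      linear_combination h2
    have hre : z.re = 0 := by
      rw [him] at h1
      have : (2 * z.re) ^ 2 = 0 := by linear_combination h1
      have := pow_eq_zero_iff (two_ne_zero) |>.mp this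
      omega
    ext
    · simpa using hre
    · simpa using him
  have : NoZeroDivisors (QA R m) := by
    refine ⟨?_⟩
    intro a b hab
    have : QuadraticAlgebra.norm a * QuadraticAlgebra.norm b = 0 := by
      rw [← map_mul, hab]; simp
    rcases mul_eq_zero.mp this with h | h
    · left; exact hn a h
    · right; exact hn b h
  exact NoZeroDivisors.to_isDomain _

/-- consequence of class number one -/
structure GoodC (R K : ℤ) (D : ℕ) (C : Ch D) : Prop where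
  hD : (D : ℤ) = (R * K) ^ 2 + 4 * R
  hD1 : 1 < D
  rel : ∀ (q : ℕ) [NeZero q], q.Coprime D → ∀ f : ZMod q → ℤ, (∀ x, f (-x) = -f x) →
    (D : ℤ) * ∑ x : ZMod q, ∑ y : ZMod q, f (x ^ 2 + (R : ZMod q) * (K : ZMod q) * (x * y)
      - (R : ZMod q) * y ^ 2) * wt K (R * K) x y =
    6 * ∑ l ∈ range (q * D), ∑ a ∈ range q, (l : ℤ) * a * C.κ l * f ((a * l : ℕ))
  inert : ∀ l : ℕ, l.Prime → l ≠ 2 → 2 * (l : ℤ) ≤ R * K → l ≠ R.natAbs →
    ¬ IsSquare (((D : ℤ)) : ZMod l)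

theorem rel_of' {q D : ℕ} [NeZero q] (C : Ch D) (hD : 0 < D) {R K : ℤ} {f : ZMod q → ℤ}
    (h : (∑ l ∈ range (q * D), ∑ a ∈ range q, (l : ℝ) * a * C.κ l *
      ((f ((a * l : ℕ)) : ℤ) : ℝ)) / (q * (q * D)) =
      SS (fun x y => ((f (x ^ 2 + (R : ZMod q) * (K : ZMod q) * (x * y)
      - (R : ZMod q) * y ^ 2) : ℤ) : ℝ) *
          (4 * (B1 x * B1 y) - K * B2 x + (R * K : ℤ) * B2 y))) :
    (D : ℤ) * ∑ x : ZMod q, ∑ y : ZMod q, f (x ^ 2 + (R : ZMod q) * (K : ZMod q) * (x * y)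
      - (R : ZMod q) * y ^ 2) * wt K (R * K) x y =
    6 * ∑ l ∈ range (q * D), ∑ a ∈ range q, (l : ℤ) * a * C.κ l * f ((a * l : ℕ)) := by
  have hq := qpos (q := q)
  have hD' : (0 : ℝ) < D := by exact_mod_cast hD
  have e1 : ((∑ x : ZMod q, ∑ y : ZMod q, f (x ^ 2 + (R : ZMod q) * (K : ZMod q) * (x * y)
      - (R : ZMod q) * y ^ 2) * wt K (R * K) x y : ℤ) : ℝ) =
      6 * q ^ 2 * SS (fun x y => ((f (x ^ 2 + (R : ZMod q) * (K : ZMod q) * (x * y)
      - (R : ZMod q) * y ^ 2) : ℤ) : ℝ) *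
          (4 * (B1 x * B1 y) - K * B2 x + (R * K : ℤ) * B2 y)) := by
    rw [← SS_mul]
    unfold SS
    rw [Int.cast_sum]
    apply Finset.sum_congr rfl
    intro x _
    rw [Int.cast_sum]
    apply Finset.sum_congr rfl
    intro y _
    rw [Int.cast_mul, wt_real]
    ring
  have e2 : ((∑ l ∈ range (q * D), ∑ a ∈ range q, (l : ℤ) * a * C.κ l *
      f ((a * l : ℕ)) : ℤ) : ℝ) = ∑ l ∈ range (q * D), ∑ a ∈ range q, (l : ℝ) * a *
      C.κ l * ((f ((a * l : ℕ)) : ℤ) : ℝ) := by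
    push_cast
    rfl
  have e3 : (((D : ℤ) * ∑ x : ZMod q, ∑ y : ZMod q, f (x ^ 2 + (R : ZMod q) * (K : ZMod q) * (x * y)
      - (R : ZMod q) * y ^ 2) * wt K (R * K) x y : ℤ) : ℝ) =
    ((6 * ∑ l ∈ range (q * D), ∑ a ∈ range q, (l : ℤ) * a * C.κ l *
      f ((a * l : ℕ)) : ℤ) : ℝ) := by
    rw [Int.cast_mul, e1, Int.cast_mul 6, e2, ← h]
    push_cast
    field_simp
  exact_mod_cast e3

theorem κ_neg_of_not_sq {D0 l : ℕ} (hl : l.Prime) (h2 : l ≠ 2)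
    (h : ¬ IsSquare ((((4 * D0 : ℕ) : ℤ)) : ZMod l)) :
    l.Coprime (4 * D0) ∧ (chr D0).κ l = -1 := by
  haveI := Fact.mk hl
  constructor
  · rw [hl.coprime_iff_not_dvd]
    intro hd
    apply h
    have : (((4 * D0 : ℕ) : ℤ) : ZMod l) = 0 := by
      rw [Int.cast_natCast]
      exact (ZMod.natCast_eq_zero_iff _ l).mpr hd
    rw [this]
    exact ⟨0, by ring⟩
  · change kr D0 l = -1
    have hodd : l % 2 = 1 := Nat.odd_iff.mp (hl.odd_of_ne_two h2)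
    unfold kr
    rw [if_neg (by omega), ← jacobiSym.legendreSym.to_jacobiSym, legendreSym.eq_neg_one_iff]
    intro hs
    exact h ((sq_iff hl h2).mpr hs)

theorem good_P' {r k : ℕ} (hr : 2 ≤ r) (hk : 1 ≤ k) (h6 : 6 ≤ r * k) (hr2 : r % 2 = 0)
    {D0 : ℕ} (hD : ((4 * D0 : ℕ) : ℤ) = ((r : ℤ) * k) ^ 2 + 4 * r)
    (hsf : Squarefree (D0 : ℤ)) (h1 : 1 < D0) (h4 : D0 % 4 = 2 ∨ D0 % 4 = 3)
    {K : Type*} [Field K] [NumberField K] (hK : Module.finrank ℚ K = 2) {x0 : K}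
    (hx : x0 ^ 2 = ((D0 : ℤ) : K)) (hcl : NumberField.classNumber K = 1) :
    GoodC (r : ℤ) (k : ℤ) (4 * D0) (chr D0) := by
  have hr' : (2 : ℤ) ≤ r := by exact_mod_cast hr
  have hmc : ((r * k : ℕ) : ℤ) = (r : ℤ) * k := by push_cast; ring
  have hDm : ((4 * D0 : ℕ) : ℤ) = ((r * k : ℕ) : ℤ) ^ 2 + 4 * (r : ℤ) := by rw [hmc]; exact hD
  have h1' : (1 : ℤ) < D0 := by exact_mod_cast h1
  have h4' : (D0 : ℤ) % 4 = 2 ∨ (D0 : ℤ) % 4 = 3 := by omega
  have hns : ¬ ∃ q : ℚ, q ^ 2 = (((4 * D0 : ℕ) : ℤ) : ℚ) := by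
    have := not_sq4 (not_sq_of_squarefree hsf h1')
    push_cast at this ⊢
    exact this
  obtain ⟨r', hr''⟩ : ∃ r', r = 2 * r' := ⟨r / 2, by omega⟩
  have hm2 : ((r * k : ℕ) : ℤ) = 2 * ((r' * k : ℕ) : ℤ) := by
    rw [hr'']; push_cast; ring
  have i1 : IsDomain (QA (r : ℤ) ((r * k : ℕ) : ℤ)) := isDomain_of' hDm hns
  have i2 : IsPrincipalIdealRing (QA (r : ℤ) ((r * k : ℕ) : ℤ)) := by
    refine pid_of_coords hDm hns (x := 2 * x0) ?_ ?_ hcl
    · rw [mul_pow, hx]; push_cast; ring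
    · intro y hy
      exact integral_coords_even hm2 hsf h1' h4' hK hx hy
  have hinert : ∀ l : ℕ, l.Prime → l ≠ 2 → 2 * (l : ℤ) ≤ (r : ℤ) * k → l ≠ (r : ℤ).natAbs →
      ¬ IsSquare ((((4 * D0 : ℕ) : ℤ)) : ZMod l) := by
    intro l hl hl2 hlm hlr hsq
    obtain ⟨w0, hw0⟩ := root_of_square hl hl2 hDm hsq
    obtain ⟨z, hz⟩ := exists_norm_prime hl hw0
    have hz0 : z ≠ 0 := by
      rintro rfl
      have := hl.pos
      simp at hz
      omega
    obtain ⟨z', h1, h2⟩ := (fdP hr hk).surj hz0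
    obtain ⟨p, rfl⟩ := (genP_range hr hk z').mp h1
    have h3 := congrArg Ideal.absNorm h2
    rw [absNorm_span, absNorm_span, hz] at h3
    have hlm' : 2 * l ≤ r * k := by exact_mod_cast hlm
    have hlr' : l ≠ r := by simpa using hlr
    exact small_normP hr hk p hl hlm' hlr' h3
  have h3 := κ_neg_of_not_sq (D0 := D0) Nat.prime_three (by norm_num)
    (hinert 3 Nat.prime_three (by norm_num) (by push_cast; rw [← hmc]; exact_mod_cast h6)
      (by rw [Int.natAbs_natCast]; omega))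
  refine ⟨hD, by omega, ?_, hinert⟩
  intro q hq hcop f hf
  apply rel_of' (chr D0) (by omega)
  have h := mainP' (F := fun x => ((f x : ℤ) : ℝ)) hr hk (chr D0)
    (cnt_eq_chr hDm (by omega)) (by omega) h3.1 h3.2 hcop
    (fun x => by rw [hf]; push_cast; ring)
  rw [h]
  apply SS_congr
  intro x y
  push_cast
  rfl

theorem good_M' {r k : ℕ} (hr : 2 ≤ r) (hk : 3 ≤ k) (h7 : 7 ≤ r * k) (hr2 : r % 2 = 0)
    {D0 : ℕ} (hD : ((4 * D0 : ℕ) : ℤ) = ((r : ℤ) * k) ^ 2 - 4 * r)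
    (hsf : Squarefree (D0 : ℤ)) (h1 : 1 < D0) (h4 : D0 % 4 = 2 ∨ D0 % 4 = 3)
    {K : Type*} [Field K] [NumberField K] (hK : Module.finrank ℚ K = 2) {x0 : K}
    (hx : x0 ^ 2 = ((D0 : ℤ) : K)) (hcl : NumberField.classNumber K = 1) :
    GoodC (-(r : ℤ)) (-(k : ℤ)) (4 * D0) (chr D0) := by
  have hr' : (2 : ℤ) ≤ r := by exact_mod_cast hr
  have hk' : (3 : ℤ) ≤ k := by exact_mod_cast hk
  have hmc : ((r * k : ℕ) : ℤ) = (r : ℤ) * k := by push_cast; ring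
  have hDm : ((4 * D0 : ℕ) : ℤ) = ((r * k : ℕ) : ℤ) ^ 2 + 4 * (-(r : ℤ)) := by
    rw [hmc, hD]; ring
  have h1' : (1 : ℤ) < D0 := by exact_mod_cast h1
  have h4' : (D0 : ℤ) % 4 = 2 ∨ (D0 : ℤ) % 4 = 3 := by omega
  have hns : ¬ ∃ q : ℚ, q ^ 2 = (((4 * D0 : ℕ) : ℤ) : ℚ) := by
    have := not_sq4 (not_sq_of_squarefree hsf h1')
    push_cast at this ⊢
    exact this
  obtain ⟨r', hr''⟩ : ∃ r', r = 2 * r' := ⟨r / 2, by omega⟩
  have hm2 : ((r * k : ℕ) : ℤ) = 2 * ((r' * k : ℕ) : ℤ) := by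
    rw [hr'']; push_cast; ring
  have i1 : IsDomain (QA (-(r : ℤ)) ((r * k : ℕ) : ℤ)) := isDomain_of' hDm hns
  have i2 : IsPrincipalIdealRing (QA (-(r : ℤ)) ((r * k : ℕ) : ℤ)) := by
    refine pid_of_coords hDm hns (x := 2 * x0) ?_ ?_ hcl
    · rw [mul_pow, hx]; push_cast; ring
    · intro y hy
      exact integral_coords_even hm2 hsf h1' h4' hK hx hy
  have hinert : ∀ l : ℕ, l.Prime → l ≠ 2 → 2 * (l : ℤ) ≤ -(r : ℤ) * -(k : ℤ) →
      l ≠ (-(r : ℤ)).natAbs → ¬ IsSquare ((((4 * D0 : ℕ) : ℤ)) : ZMod l) := by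
    intro l hl hl2 hlm hlr hsq
    obtain ⟨w0, hw0⟩ := root_of_square hl hl2 hDm hsq
    obtain ⟨z, hz⟩ := exists_norm_prime hl hw0
    have hz0 : z ≠ 0 := by
      rintro rfl
      have := hl.pos
      simp at hz
      omega
    obtain ⟨z', h1, h2⟩ := (fdM hr hk).surj hz0
    obtain ⟨p, rfl⟩ := (genM_range hr hk z').mp h1
    have h3 := congrArg Ideal.absNorm h2
    rw [absNorm_span, absNorm_span, hz] at h3
    have hlm' : 2 * l ≤ r * k := by
      have : 2 * (l : ℤ) ≤ (r : ℤ) * k := by linarith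
      exact_mod_cast this
    have hlr' : l ≠ r := by simpa using hlr
    exact small_normM hr hk p hl hlm' hlr' h7 h3
  have h3 := κ_neg_of_not_sq (D0 := D0) Nat.prime_three (by norm_num)
    (hinert 3 Nat.prime_three (by norm_num) (by
        push_cast
        have : (7 : ℤ) ≤ (r : ℤ) * k := by rw [← hmc]; exact_mod_cast h7
        linarith)
      (by rw [Int.natAbs_neg, Int.natAbs_natCast]; omega))
  refine ⟨by rw [hD]; ring, by omega, ?_, hinert⟩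
  intro q hq hcop f hf
  apply rel_of' (chr D0) (by omega)
  have h := mainM' (F := fun x => ((f x : ℤ) : ℝ)) hr hk (chr D0)
    (cnt_eq_chr hDm (by omega)) (by omega) h3.1 h3.2 hcop
    (fun x => by rw [hf]; push_cast; ring)
  rw [h]
  apply SS_congr
  intro x y
  push_cast
  have e1 : x ^ 2 + -(r : ZMod q) * -(k : ZMod q) * (x * y) - -(r : ZMod q) * y ^ 2 =
    x ^ 2 + (r : ZMod q) * (k : ZMod q) * (x * y) + (r : ZMod q) * y ^ 2 := by ring
  rw [e1]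
  ring

/-- Relation modulo a prime. -/
theorem GoodC.rel_mod {R K : ℤ} {D : ℕ} {C : Ch D} (G : GoodC R K D C) {p : ℕ} (hp : p.Prime)
    (hp2 : p ≠ 2)
    (hpD : ¬ (p : ℤ) ∣ D) {q : ℕ} [NeZero q] (hcop : q.Coprime D) (χ : ZMod q → ZMod p)
    (hmul : ∀ x y, χ (x * y) = χ x * χ y) (hodd : ∀ x, χ (-x) = -χ x)
    (hB : ∑ a ∈ range q, (a : ZMod p) * χ a = 0) :
    ∑ x : ZMod q, ∑ y : ZMod q, χ (x ^ 2 + (R : ZMod q) * (K : ZMod q) * (x * y)
      - (R : ZMod q) * y ^ 2) * (wt K (R * K) x y : ZMod p) = 0 := by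
  have hF := Fact.mk hp
  have h2 : (2 : ZMod p) ≠ 0 := by
    intro h
    have : ((2 : ℕ) : ZMod p) = 0 := by exact_mod_cast h
    rw [ZMod.natCast_eq_zero_iff] at this
    exact hp2 ((Nat.prime_dvd_prime_iff_eq hp Nat.prime_two).mp this)
  have hD0 : ((D : ℤ) : ZMod p) ≠ 0 := by
    intro h
    exact hpD ((ZMod.intCast_zmod_eq_zero_iff_dvd _ p).mp h)
  have h := G.rel q hcop (fun x => ((χ x).val : ℤ) - ((χ (-x)).val : ℤ)) (fun x => by
    rw [neg_neg]; ring)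
  have hf : ∀ x, ((((χ x).val : ℤ) - ((χ (-x)).val : ℤ) : ℤ) : ZMod p) = 2 * χ x := by
    intro x
    push_cast
    rw [ZMod.natCast_zmod_val, ZMod.natCast_zmod_val, hodd]
    ring
  have h' := congrArg (fun z : ℤ => (z : ZMod p)) h
  rw [Int.cast_mul, Int.cast_mul, Int.cast_sum, Int.cast_sum] at h'
  have hR : ∑ l ∈ range (q * D), ((∑ a ∈ range q, (l : ℤ) * a * C.κ l *
      (((χ ((a * l : ℕ))).val : ℤ) - ((χ (-((a * l : ℕ) : ZMod q))).val : ℤ)) : ℤ) : ZMod p) = 0 := by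
    apply Finset.sum_eq_zero
    intro l _
    rw [Int.cast_sum]
    have e : ∀ a ∈ range q, (((l : ℤ) * a * C.κ l *
      (((χ ((a * l : ℕ))).val : ℤ) - ((χ (-((a * l : ℕ) : ZMod q))).val : ℤ)) : ℤ) : ZMod p) =
      ((l : ZMod p) * (C.κ l : ZMod p) * 2 * χ l) * ((a : ZMod p) * χ a) := by
      intro a _
      rw [Int.cast_mul, hf, Nat.cast_mul, hmul]
      push_cast
      ring
    rw [Finset.sum_congr rfl e, ← Finset.mul_sum, hB, mul_zero]
  rw [hR, mul_zero] at h'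
  rcases mul_eq_zero.mp h' with h3 | h3
  · exact absurd h3 hD0
  · have e : ∀ x ∈ (Finset.univ : Finset (ZMod q)), ((∑ y : ZMod q,
        (((χ (x ^ 2 + (R : ZMod q) * (K : ZMod q) * (x * y) - (R : ZMod q) * y ^ 2)).val : ℤ) -
        ((χ (-(x ^ 2 + (R : ZMod q) * (K : ZMod q) * (x * y) - (R : ZMod q) * y ^ 2))).val : ℤ)) *
        wt K (R * K) x y : ℤ) : ZMod p) =
        2 * ∑ y : ZMod q, χ (x ^ 2 + (R : ZMod q) * (K : ZMod q) * (x * y)
      - (R : ZMod q) * y ^ 2) * (wt K (R * K) x y : ZMod p) := by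
      intro x _
      rw [Int.cast_sum, Finset.mul_sum]
      apply Finset.sum_congr rfl
      intro y _
      rw [Int.cast_mul, hf]
      ring
    rw [Finset.sum_congr rfl e, ← Finset.mul_sum] at h3
    rcases mul_eq_zero.mp h3 with h4 | h4
    · exact absurd h4 h2
    · exact h4

theorem rel_of_goodC {c : CD} (hc : c.OK) {R K : ℤ} {D : ℕ} {C : Ch D} (G : GoodC R K D C)
    (hpD : ¬ (c.p : ℤ) ∣ D) (hcop : c.q.Coprime D) : c.Rel R K := by
  intro _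
  exact G.rel_mod hc.pp hc.p2 hpD hcop _ (chi_mul hc.mul) (chi_neg hc.q1 hc.mul hc.oth)
    (chi_sum hc.oth)

end H364_Bi
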