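import Pool.Agent.H364_Bi.N5
import Pool.Agent.H364_Bi.Q2

/-! Assembly of the residue searches. -/

set_option maxRecDepth 100000

namespace H364_Bi

open Finset H419R2

/-- relations and inertness -/
structure SysE (R K : ℤ) (B : ℕ) : Prop where
  inert : ∀ l : ℕ, l.Prime → l ≠ 2 → l ≤ B → ¬ IsSquare (((R * K) ^ 2 + 4 * R : ℤ) : ZMod l)
  rel : ∀ (c : CD) (fs : List ℕ), c.OK → c.q ∣ fs.prod →
    (∀ l ∈ fs, l.Prime ∧ l ≠ 2 ∧ l ≤ B) → c.p ≤ B → c.Rel R K

theorem sysE_of_good {R K : ℤ} {D : ℕ} {C : Ch D} (G : GoodC R K D C) (hR : R.natAbs = 2)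
    {B : ℕ} (h : 2 * (B : ℤ) ≤ R * K) : SysE R K B := by
  have hin' : ∀ l : ℕ, l.Prime → l ≠ 2 → l ≤ B → ¬ IsSquare (((D : ℤ)) : ZMod l) := by
    intro l hl h2 hlB
    have hlB' : (l : ℤ) ≤ B := by exact_mod_cast hlB
    exact G.inert l hl h2 (by linarith) (by rw [hR]; exact h2)
  have hnd : ∀ l : ℕ, l.Prime → l ≠ 2 → l ≤ B → ¬ (l : ℤ) ∣ D := by
    intro l hl h2 hlB hd
    apply hin' l hl h2 hlB
    have : ((D : ℤ) : ZMod l) = 0 := (ZMod.intCast_zmod_eq_zero_iff_dvd _ l).mpr hd
    rw [this]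
    exact ⟨0, by ring⟩
  refine ⟨?_, ?_⟩
  · intro l hl h2 hlB
    have := hin' l hl h2 hlB
    rw [G.hD] at this
    exact this
  intro c fs hc hq hfs hp
  refine rel_of_goodC hc G (hnd _ hc.pp hc.p2 hp) ?_
  apply Nat.Coprime.coprime_dvd_left hq
  have : ∀ fs : List ℕ, (∀ l ∈ fs, l.Prime ∧ l ≠ 2 ∧ l ≤ B) → Nat.Coprime fs.prod D := by
    intro fs
    induction fs with
    | nil => intro _; simp
    | cons l fs ih =>
      intro h1
      rw [List.prod_cons]
      apply Nat.Coprime.mul_left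
      · have h2 := h1 l (by simp)
        rw [h2.1.coprime_iff_not_dvd]
        intro h3
        exact hnd l h2.1 h2.2.1 h2.2.2 (by exact_mod_cast h3)
      · exact ih (fun l' hl' => h1 l' (by simp [hl']))
  exact this fs hfs

section

variable {R K : ℤ}

theorem Hc95_13 {B : ℕ} (hs : SysE R K B) (hB : 19 ≤ B) : c95_13.OK ∧ c95_13.Rel R K :=
  ⟨c95_13_ok, hs.rel c95_13 [5, 19] c95_13_ok (by change 95 ∣ _; decide)
    (by
      intro l hl
      simp only [List.mem_cons, List.mem_nil_iff, or_false] at hl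
      rcases hl with rfl | rfl <;> exact ⟨by norm_num, by norm_num, by omega⟩)
    (by change 13 ≤ B; omega)⟩

theorem Hc133_13 {B : ℕ} (hs : SysE R K B) (hB : 19 ≤ B) : c133_13.OK ∧ c133_13.Rel R K :=
  ⟨c133_13_ok, hs.rel c133_13 [7, 19] c133_13_ok (by change 133 ∣ _; decide)
    (by
      intro l hl
      simp only [List.mem_cons, List.mem_nil_iff, or_false] at hl
      rcases hl with rfl | rfl <;> exact ⟨by norm_num, by norm_num, by omega⟩)
    (by change 13 ≤ B; omega)⟩

theorem Hc133_37 {B : ℕ} (hs : SysE R K B) (hB : 37 ≤ B) : c133_37.OK ∧ c133_37.Rel R K :=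
  ⟨c133_37_ok, hs.rel c133_37 [7, 19] c133_37_ok (by change 133 ∣ _; decide)
    (by
      intro l hl
      simp only [List.mem_cons, List.mem_nil_iff, or_false] at hl
      rcases hl with rfl | rfl <;> exact ⟨by norm_num, by norm_num, by omega⟩)
    (by change 37 ≤ B; omega)⟩

theorem Hc247_73_0 {B : ℕ} (hs : SysE R K B) (hB : 73 ≤ B) : c247_73_0.OK ∧ c247_73_0.Rel R K :=
  ⟨c247_73_0_ok, hs.rel c247_73_0 [13, 19] c247_73_0_ok (by change 247 ∣ _; decide)
    (by
      intro l hl
      simp only [List.mem_cons, List.mem_nil_iff, or_false] at hl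
      rcases hl with rfl | rfl <;> exact ⟨by norm_num, by norm_num, by omega⟩)
    (by change 73 ≤ B; omega)⟩

theorem Hc111_19_1 {B : ℕ} (hs : SysE R K B) (hB : 37 ≤ B) : c111_19_1.OK ∧ c111_19_1.Rel R K :=
  ⟨c111_19_1_ok, hs.rel c111_19_1 [3, 37] c111_19_1_ok (by change 111 ∣ _; decide)
    (by
      intro l hl
      simp only [List.mem_cons, List.mem_nil_iff, or_false] at hl
      rcases hl with rfl | rfl <;> exact ⟨by norm_num, by norm_num, by omega⟩)
    (by change 19 ≤ B; omega)⟩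

theorem Hc185_13 {B : ℕ} (hs : SysE R K B) (hB : 37 ≤ B) : c185_13.OK ∧ c185_13.Rel R K :=
  ⟨c185_13_ok, hs.rel c185_13 [5, 37] c185_13_ok (by change 185 ∣ _; decide)
    (by
      intro l hl
      simp only [List.mem_cons, List.mem_nil_iff, or_false] at hl
      rcases hl with rfl | rfl <;> exact ⟨by norm_num, by norm_num, by omega⟩)
    (by change 13 ≤ B; omega)⟩

theorem Hc399_61 {B : ℕ} (hs : SysE R K B) (hB : 61 ≤ B) : c399_61.OK ∧ c399_61.Rel R K :=
  ⟨c399_61_ok, hs.rel c399_61 [3, 7, 19] c399_61_ok (by change 399 ∣ _; decide)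
    (by
      intro l hl
      simp only [List.mem_cons, List.mem_nil_iff, or_false] at hl
      rcases hl with rfl | rfl | rfl <;> exact ⟨by norm_num, by norm_num, by omega⟩)
    (by change 61 ≤ B; omega)⟩

end

theorem noP2 {K : ℤ} (hs : SysE (2) K 73) : False := by
  have H : ∀ st ∈ stepsP2, StepHyp (2) K st := by
    unfold stepsP2
    exact List.forall_mem_cons.mpr ⟨⟨List.forall_mem_nil _,
      List.forall_mem_nil _,
      hs.inert 3 (by norm_num) (by norm_num) (by norm_num)⟩,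
      List.forall_mem_cons.mpr ⟨⟨List.forall_mem_nil _,
      List.forall_mem_nil _,
      hs.inert 5 (by norm_num) (by norm_num) (by norm_num)⟩,
      List.forall_mem_cons.mpr ⟨⟨List.forall_mem_nil _,
      List.forall_mem_nil _,
      hs.inert 7 (by norm_num) (by norm_num) (by norm_num)⟩,
      List.forall_mem_cons.mpr ⟨⟨List.forall_mem_nil _,
      List.forall_mem_nil _,
      hs.inert 13 (by norm_num) (by norm_num) (by norm_num)⟩,
      List.forall_mem_cons.mpr ⟨⟨List.forall_mem_nil _,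
      List.forall_mem_cons.mpr ⟨Hc95_13 hs (by norm_num),
      List.forall_mem_cons.mpr ⟨Hc133_13 hs (by norm_num),
      List.forall_mem_cons.mpr ⟨Hc247_73_0 hs (by norm_num),
      List.forall_mem_nil _⟩⟩⟩,
      hs.inert 19 (by norm_num) (by norm_num) (by norm_num)⟩,
      List.forall_mem_cons.mpr ⟨⟨List.forall_mem_cons.mpr ⟨Hc247_73_0 hs (by norm_num),
      List.forall_mem_nil _⟩,
      List.forall_mem_nil _,
      hs.inert 73 (by norm_num) (by norm_num) (by norm_num)⟩,
      List.forall_mem_nil _⟩⟩⟩⟩⟩⟩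
  refine runS_sound false 2 stepsP2 (M := 1) (by decide) runP2_ok (R := (2)) (K := K) rfl H ?_
  have e1 : res (2) 1 = 0 := by decide
  have e2 : res K 1 = 0 := by
    unfold res
    simp
  rw [e1, e2]
  exact List.mem_singleton.mpr rfl

theorem noM2 {K : ℤ} (hs : SysE (-2) K 61) : False := by
  have H : ∀ st ∈ stepsM2, StepHyp (-2) K st := by
    unfold stepsM2
    exact List.forall_mem_cons.mpr ⟨⟨List.forall_mem_nil _,
      List.forall_mem_nil _,
      hs.inert 3 (by norm_num) (by norm_num) (by norm_num)⟩,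
      List.forall_mem_cons.mpr ⟨⟨List.forall_mem_nil _,
      List.forall_mem_nil _,
      hs.inert 5 (by norm_num) (by norm_num) (by norm_num)⟩,
      List.forall_mem_cons.mpr ⟨⟨List.forall_mem_nil _,
      List.forall_mem_nil _,
      hs.inert 7 (by norm_num) (by norm_num) (by norm_num)⟩,
      List.forall_mem_cons.mpr ⟨⟨List.forall_mem_nil _,
      List.forall_mem_nil _,
      hs.inert 13 (by norm_num) (by norm_num) (by norm_num)⟩,
      List.forall_mem_cons.mpr ⟨⟨List.forall_mem_nil _,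
      List.forall_mem_cons.mpr ⟨Hc133_37 hs (by norm_num),
      List.forall_mem_cons.mpr ⟨Hc133_13 hs (by norm_num),
      List.forall_mem_cons.mpr ⟨Hc399_61 hs (by norm_num),
      List.forall_mem_nil _⟩⟩⟩,
      hs.inert 19 (by norm_num) (by norm_num) (by norm_num)⟩,
      List.forall_mem_cons.mpr ⟨⟨List.forall_mem_cons.mpr ⟨Hc133_37 hs (by norm_num),
      List.forall_mem_nil _⟩,
      List.forall_mem_cons.mpr ⟨Hc111_19_1 hs (by norm_num),
      List.forall_mem_cons.mpr ⟨Hc185_13 hs (by norm_num),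
      List.forall_mem_cons.mpr ⟨Hc399_61 hs (by norm_num),
      List.forall_mem_nil _⟩⟩⟩,
      hs.inert 37 (by norm_num) (by norm_num) (by norm_num)⟩,
      List.forall_mem_cons.mpr ⟨⟨List.forall_mem_cons.mpr ⟨Hc399_61 hs (by norm_num),
      List.forall_mem_nil _⟩,
      List.forall_mem_nil _,
      hs.inert 61 (by norm_num) (by norm_num) (by norm_num)⟩,
      List.forall_mem_nil _⟩⟩⟩⟩⟩⟩⟩
  refine runS_sound true 2 stepsM2 (M := 1) (by decide) runM2_ok (R := (-2)) (K := K) rfl H ?_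
  have e1 : res (-2) 1 = 0 := by decide
  have e2 : res K 1 = 0 := by
    unfold res
    simp
  rw [e1, e2]
  exact List.mem_singleton.mpr rfl

end H364_Bi
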