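import Pool.Agent.H364_Bi.Q3
import Pool.Agent.H419R2.S2

/-! Small values of `m`, and the conclusion: the class number of `ℚ(√(m² ± 2))`, `m > 20`,
is greater than one. -/

set_option maxRecDepth 100000

namespace H364_Bi

open H419R2

/-- check for the plus sign -/
def smP : Bool :=
  allR 73 (fun k => or (Nat.ble k 20)
    (wit (Nat.add (Nat.mul 4 (Nat.mul k k)) 8) (Nat.mul 2 k) 2))

/-- check for the minus sign -/
def smM : Bool :=
  allR 61 (fun k => or (Nat.ble k 20)
    (wit (Nat.sub (Nat.mul 4 (Nat.mul k k)) 8) (Nat.mul 2 k) 2))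

theorem smP_ok : smP = true := by decide +kernel

theorem smM_ok : smM = true := by decide +kernel

theorem plus2 {k : ℕ} (hk : 20 < k) (hsf : Squarefree ((k : ℤ) ^ 2 + 2))
    {K : Type*} [Field K] [NumberField K] (hK : Module.finrank ℚ K = 2) {x : K}
    (hx : x ^ 2 = (((k : ℤ) ^ 2 + 2 : ℤ) : K)) : NumberField.classNumber K ≠ 1 := by
  intro hcl
  have hD0 : ((k ^ 2 + 2 : ℕ) : ℤ) = (k : ℤ) ^ 2 + 2 := by push_cast; ring
  have h4 : (k ^ 2 + 2) % 4 = 2 ∨ (k ^ 2 + 2) % 4 = 3 := by
    obtain ⟨a, ha⟩ : ∃ a, k = 2 * a + k % 2 := ⟨k / 2, by omega⟩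
    rcases Nat.mod_two_eq_zero_or_one k with h | h
    · left
      rw [ha, h]
      have : (2 * a + 0) ^ 2 + 2 = 4 * a ^ 2 + 2 := by ring
      rw [this]; omega
    · right
      rw [ha, h]
      have : (2 * a + 1) ^ 2 + 2 = 4 * (a ^ 2 + a) + 3 := by ring
      rw [this]; omega
  have G := good_P' (r := 2) (k := k) (le_refl 2) (by omega) (by omega) rfl
    (D0 := k ^ 2 + 2) (by push_cast; ring) (by rw [hD0]; exact hsf) (by omega) h4 hK (x0 := x)
    (by rw [hD0]; exact hx) hcl
  rcases lt_or_ge k 73 with h | h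
  · have h1 := smP_ok
    unfold smP at h1
    rw [allR_iff] at h1
    have h2 := h1 k h
    rw [Bool.or_eq_true] at h2
    rcases h2 with h2 | h2
    · exact ble_false hk h2
    · obtain ⟨l, hl, hl2, hlm, hlr, hsq⟩ := wit_spec h2
      apply G.inert l hl hl2
      · have h3 : 2 * l ≤ 2 * k := hlm
        push_cast
        exact_mod_cast h3
      · simpa using hlr
      · have e : Nat.add (Nat.mul 4 (Nat.mul k k)) 8 = 4 * (k ^ 2 + 2) := by
          change 4 * (k * k) + 8 = _
          ring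
        rw [e] at hsq
        rw [Int.cast_natCast]
        exact hsq
  · have hs : SysE ((2 : ℕ) : ℤ) (k : ℤ) 73 := sysE_of_good G rfl (by
      have : (73 : ℤ) ≤ k := by exact_mod_cast h
      push_cast
      linarith)
    exact noP2 hs

theorem minus2 {k : ℕ} (hk : 20 < k) (hsf : Squarefree ((k : ℤ) ^ 2 - 2))
    {K : Type*} [Field K] [NumberField K] (hK : Module.finrank ℚ K = 2) {x : K}
    (hx : x ^ 2 = (((k : ℤ) ^ 2 - 2 : ℤ) : K)) : NumberField.classNumber K ≠ 1 := by
  intro hcl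
  have hk2 : 400 < k ^ 2 := by nlinarith
  have hD0 : ((k ^ 2 - 2 : ℕ) : ℤ) = (k : ℤ) ^ 2 - 2 := by
    rw [Nat.cast_sub (by omega)]; push_cast; ring
  have h4 : (k ^ 2 - 2) % 4 = 2 ∨ (k ^ 2 - 2) % 4 = 3 := by
    obtain ⟨a, ha⟩ : ∃ a, k = 2 * a + k % 2 := ⟨k / 2, by omega⟩
    rcases Nat.mod_two_eq_zero_or_one k with h | h
    · left
      have h5 : k ^ 2 = 4 * a ^ 2 := by rw [ha, h]; ring
      rw [h5] at hk2 ⊢
      omega
    · right
      have h5 : k ^ 2 = 4 * (a ^ 2 + a) + 1 := by rw [ha, h]; ring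
      rw [h5] at hk2 ⊢
      omega
  have G := good_M' (r := 2) (k := k) (le_refl 2) (by omega) (by omega) rfl
    (D0 := k ^ 2 - 2) (by push_cast; rw [hD0]; ring) (by rw [hD0]; exact hsf) (by omega) h4 hK
    (x0 := x) (by rw [hD0]; exact hx) hcl
  rcases lt_or_ge k 61 with h | h
  · have h1 := smM_ok
    unfold smM at h1
    rw [allR_iff] at h1
    have h2 := h1 k h
    rw [Bool.or_eq_true] at h2
    rcases h2 with h2 | h2
    · exact ble_false hk h2
    · obtain ⟨l, hl, hl2, hlm, hlr, hsq⟩ := wit_spec h2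
      apply G.inert l hl hl2
      · have h3 : 2 * l ≤ 2 * k := hlm
        have h4 : 2 * (l : ℤ) ≤ 2 * k := by exact_mod_cast h3
        push_cast
        linarith
      · simpa using hlr
      · have e : Nat.sub (Nat.mul 4 (Nat.mul k k)) 8 = 4 * (k ^ 2 - 2) := by
          change 4 * (k * k) - 8 = _
          have : k * k = k ^ 2 := by ring
          rw [this]; omega
        rw [e] at hsq
        rw [Int.cast_natCast]
        exact hsq
  · have hs : SysE (-((2 : ℕ) : ℤ)) (-(k : ℤ)) 61 := sysE_of_good G rfl (by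
      have : (61 : ℤ) ≤ k := by exact_mod_cast h
      push_cast
      linarith)
    exact noM2 hs

theorem main2 (m : ℤ) (hm : 20 < m) (s : ℤ) (hs : s = 2 ∨ s = -2) (hsf : Squarefree (m ^ 2 + s))
    (K : Type*) [Field K] [NumberField K] (hK : Module.finrank ℚ K = 2)
    (hx : ∃ x : K, x ^ 2 = ((m ^ 2 + s : ℤ) : K)) : 1 < NumberField.classNumber K := by
  obtain ⟨k, rfl⟩ : ∃ k : ℕ, (k : ℤ) = m := ⟨m.toNat, Int.toNat_of_nonneg (by omega)⟩
  have hk : 20 < k := by exact_mod_cast hm
  obtain ⟨x, hx⟩ := hx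
  have hpos : 0 < NumberField.classNumber K := Fintype.card_pos
  have hne : NumberField.classNumber K ≠ 1 := by
    rcases hs with rfl | rfl
    · exact plus2 hk hsf hK hx
    · exact minus2 hk (by rw [sub_eq_add_neg]; exact hsf) hK (x := x)
        (by rw [hx, sub_eq_add_neg])
  omega

end H364_Bi
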